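import Pool.Agent.H8.OCS.Round
import Pool.Agent.H40.SLP.TrlP

/-!
# Transfer of fullness from the natural record to the absolute rows

`transfer`: a variable `N` which is a function of the label `c`, the label `ζ` and the block `Vb`,
is as large given `(ζ, Vf)` as it is given `(ζ, Vb)`, if `Vf` is exact given the labels.
-/

set_option autoImplicit false

namespace Pool.KG

open Finset Real
open Pool.Agent.H49.Ent Pool.Agent.H32.Dense Pool.STK Pool.KA Pool.K2S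

variable {Ω S S' T T' U U' V V' R : Type} [Fintype Ω] {p : Ω → ℝ}

/-- Symmetry of the conditional information. -/
theorem tr_symm (hp : ∀ ω, 0 ≤ p ω) (X : Ω → S) (Y : Ω → T) (W : Ω → U) :
    CH p X W - CH p X (fun ω => (Y ω, W ω)) = CH p Y W - CH p Y (fun ω => (X ω, W ω)) := by
  have h1 := CH_chain hp X Y W
  have h2 := CH_chain hp Y X W
  have h3 : CH p (fun ω => (X ω, Y ω)) W = CH p (fun ω => (Y ω, X ω)) W :=
    CH_congr hp (fun ω ω' _ _ e => by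
      have e1 := Prod.ext_iff.mp e
      have e2 := Prod.ext_iff.mp e1.1
      exact Prod.ext e2.2 e2.1) (fun ω ω' _ _ e => by
      have e1 := Prod.ext_iff.mp e
      have e2 := Prod.ext_iff.mp e1.1
      exact Prod.ext e2.2 e2.1) (fun _ _ _ _ e => e) (fun _ _ _ _ e => e)
  linarith

/-- **(TRANSFER), pure form.** -/
theorem transfer (hp : ∀ ω, 0 ≤ p ω) (N : Ω → S) (c : Ω → T) (ζ : Ω → T') (Vb : Ω → U)
    (Vf : Ω → V) {d e : ℝ}
    (hd : CH p Vf (fun ω => (ζ ω, Vb ω)) - CH p Vf (fun ω => (c ω, (ζ ω, Vb ω))) ≤ d)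
    (he : CH p N (fun ω => (c ω, (ζ ω, Vb ω))) ≤ e) :
    CH p N (fun ω => (ζ ω, Vb ω)) - d - e ≤ CH p N (fun ω => (Vf ω, (ζ ω, Vb ω))) := by
  have h1 := tr_symm hp N Vf (fun ω => (ζ ω, Vb ω))
  have h2 := tr_symm hp N Vf (fun ω => (c ω, (ζ ω, Vb ω)))
  have h3 : CH p Vf (fun ω => (N ω, (c ω, (ζ ω, Vb ω)))) ≤
      CH p Vf (fun ω => (N ω, (ζ ω, Vb ω))) :=
    CH_mono_cond hp fun ω ω' _ _ q => by
      have e1 := Prod.ext_iff.mp q
      have e2 := Prod.ext_iff.mp e1.2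
      exact Prod.ext e1.1 e2.2
  have h4 := CH_nonneg hp N (fun ω => (Vf ω, (c ω, (ζ ω, Vb ω))))
  linarith

/-- **(TRANSFER)** to the rows: `M` are the rows of the position, `w` is the absolute condition,
`r` is the natural record. -/
theorem transfer_rows (hp : ∀ ω, 0 ≤ p ω) (N : Ω → S) (M : Ω → S') (c : Ω → T) (ζ : Ω → T')
    (Vb : Ω → U) (Vf : Ω → V) (r : Ω → R) (w : Ω → V') {a d e e' e'' : ℝ}
    (hr : Det p (fun ω => (r ω, Vb ω)) ζ)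
    (ha : a ≤ CH p N (fun ω => (r ω, Vb ω)))
    (hd : CH p Vf (fun ω => (ζ ω, Vb ω)) - CH p Vf (fun ω => (c ω, (ζ ω, Vb ω))) ≤ d)
    (he : CH p N (fun ω => (c ω, (ζ ω, Vb ω))) ≤ e)
    (he' : CH p N (fun ω => (M ω, (Vf ω, (ζ ω, Vb ω)))) ≤ e')
    (he'' : CH p w (fun ω => (Vf ω, (ζ ω, Vb ω))) ≤ e'') :
    a - d - e - e' - e'' ≤ CH p M w := by
  have h1 := transfer hp N c ζ Vb Vf hd he
  have h2 : CH p N (fun ω => (r ω, Vb ω)) ≤ CH p N (fun ω => (ζ ω, Vb ω)) :=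
    CH_mono_cond hp fun ω ω' ha hb q => Prod.ext (hr ω ω' ha hb q) (Prod.ext_iff.mp q).2
  have h3 := CH_le_add hp N M (fun ω => (Vf ω, (ζ ω, Vb ω)))
  have h4 := CH_le_add hp M w (fun ω => (Vf ω, (ζ ω, Vb ω)))
  have h5 : CH p M (fun ω => (w ω, (Vf ω, (ζ ω, Vb ω)))) ≤ CH p M w :=
    CH_mono_cond hp fun ω ω' _ _ q => (Prod.ext_iff.mp q).1
  linarith

/-- The block of a coordinate relative to the label `ζ` is a function of the labels `c`, `ζ` and of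
the cell of the other coordinates. -/
theorem blk_of_labels (m K : ℕ) : ∃ C : ℝ, 1 ≤ C ∧ ∀ (Ω : Type) [Fintype Ω] (p : Ω → ℝ) (T : Type)
    (x : Ω → ℝ) (b : Ω → Fin m → ℝ) (P₁ P₂ : Ω → MvPolynomial (Fin m) ℝ) (W : Ω → T)
    (s ρ δ B h : ℝ), IsLaw p → 0 < s → 0 < δ → δ ≤ ρ →
    (∀ ω ω', 0 < p ω → 0 < p ω' → W ω = W ω' → P₁ ω = P₁ ω' ∧ P₂ ω = P₂ ω' ∧
      ∀ j, |b ω j - b ω' j| ≤ δ) →
    (∀ ω, 0 < p ω → (P₁ ω).totalDegree ≤ K ∧ (P₂ ω).totalDegree ≤ K ∧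
      |x ω - MvPolynomial.eval (b ω) (P₂ ω)| ≤ h ∧
      ∀ y : Fin m → ℝ, (∀ j, |y j - b ω j| ≤ ρ) →
        |MvPolynomial.eval y (P₁ ω) - MvPolynomial.eval y (P₂ ω)| ≤ B) →
    CH p (fun ω => ⌊(x ω - MvPolynomial.eval (b ω) (P₁ ω)) / s⌋) W ≤
      Real.log (2 * ((2 * h + C * B * (δ / ρ)) / s + 1) + 1) := by
  obtain ⟨C, hC, hl⟩ := Pool.Agent.H40.SLP.ball_lip m K
  refine ⟨C, hC, ?_⟩
  intro Ω _ p T x b P₁ P₂ W s ρ δ B h hp hs hδ hδρ hW hA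
  refine Pool.OCSR.Ocs.CH_int hp _ W ?_
  intro ω ω' hω hω' hww
  obtain ⟨e1, e2, e3⟩ := hW ω ω' hω hω' hww
  obtain ⟨d1, d2, d3, d4⟩ := hA ω hω
  obtain ⟨-, -, d5, -⟩ := hA ω' hω'
  have hd : (P₁ ω - P₂ ω).totalDegree ≤ K :=
    (MvPolynomial.totalDegree_sub _ _).trans (max_le d1 d2)
  have h1 := hl (P₁ ω - P₂ ω) (b ω) (b ω') ρ δ B hd hδ hδρ (fun y hy => by
    rw [map_sub]
    exact d4 y hy) (fun j => by rw [abs_sub_comm]; exact e3 j)
  rw [map_sub, map_sub] at h1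
  rw [← e2] at d5
  rw [← e1]
  have h2 : |(x ω - MvPolynomial.eval (b ω) (P₁ ω)) / s -
      (x ω' - MvPolynomial.eval (b ω') (P₁ ω)) / s| ≤ (2 * h + C * B * (δ / ρ)) / s := by
    rw [← sub_div, abs_div, abs_of_pos hs]
    refine div_le_div_of_nonneg_right ?_ hs.le
    have := abs_le.mp d3
    have := abs_le.mp d5
    have := abs_le.mp h1
    rw [abs_le]
    constructor <;> linarith
  exact Pool.OCSR.Ocs.fl_sub h2

end Pool.KG
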