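import Pool.Agent.H33.GEN.TrS
import Pool.Agent.H18.PB.Defs

/-!
# Transfer, form for families

`transfer_fam`: from the block of the coordinate `i₁` relative to a label `φ` (given a natural
record) to the rows of this coordinate, given all digits of the other coordinates and the rows up to
the precision of the label.
-/

set_option autoImplicit false

namespace Pool.KG

open Finset Real
open Pool.Agent.H49.Ent Pool.Agent.H32.Dense Pool.STK Pool.KA Pool.KSAT Pool.K2S Pool.PB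
open Pool.OCSR.Ocs

variable {m J : ℕ}

/-- The digits of the coordinates different from `i₁`. -/
noncomputable def Vd (F : Fam m J) (i₁ : Fin m) (r : ℕ) (ω : F.Ω) : Fin m → ℤ :=
  Function.update (F.X r ω) i₁ 0

/-- The block of the coordinate `i₁` relative to the label `φ`. -/
noncomputable def nbk (F : Fam m J) (i₁ : Fin m) (φ : F.Ω → (Fin m → ℝ) → ℝ) (Q : ℕ)
    (ω : F.Ω) : ℤ := ⌊(2 : ℝ) ^ Q * (F.x ω i₁ - φ ω (bp F i₁ ω))⌋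

theorem X_int (F : Fam m J) (r : ℕ) (ω : F.Ω) (j : Fin m) :
    F.X r ω j = ⌊(2 : ℝ) ^ r * F.x ω j⌋ := rfl

/-- The rows of the coordinate `i₁` are a function of the block, up to bounded ambiguity. -/
theorem nbk_le {F : Fam m J} {i₁ : Fin m} {q : F.Ω → ℝ} (hq : IsLaw q)
    {Y : Type} (φ : F.Ω → (Fin m → ℝ) → ℝ) (ζ : F.Ω → Y) (Q : ℕ) {Λ : ℝ}
    (hlip : ∀ ω ω', 0 < q ω → 0 < q ω' → ζ ω = ζ ω' → F.W ω = F.W ω' →
      Vd F i₁ J ω = Vd F i₁ J ω' →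
      |φ ω (bp F i₁ ω) - φ ω' (bp F i₁ ω')| ≤ Λ / 2 ^ Q) :
    CH q (nbk F i₁ φ Q) (fun ω => (F.X Q ω i₁, ((Vd F i₁ J ω, F.W ω), ζ ω))) ≤
      Real.log (2 * (Λ + 2) + 1) := by
  have h2 : (0 : ℝ) < 2 ^ Q := by positivity
  refine CH_int hq _ _ ?_
  intro ω ω' hω hω' e
  have e1 := Prod.ext_iff.mp e
  have e2 := Prod.ext_iff.mp e1.2
  have e3 := Prod.ext_iff.mp e2.1
  have h3 := hlip ω ω' hω hω' e2.2 e3.2 e3.1
  have h4 : |(2 : ℝ) ^ Q * F.x ω i₁ - 2 ^ Q * F.x ω' i₁| ≤ 1 := fl_eq e1.1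
  have h5 : |(2 : ℝ) ^ Q * (F.x ω i₁ - φ ω (bp F i₁ ω)) -
      2 ^ Q * (F.x ω' i₁ - φ ω' (bp F i₁ ω'))| ≤ Λ + 1 := by
    have h6 : (2 : ℝ) ^ Q * |φ ω (bp F i₁ ω) - φ ω' (bp F i₁ ω')| ≤ Λ := by
      calc _ ≤ (2 : ℝ) ^ Q * (Λ / 2 ^ Q) := mul_le_mul_of_nonneg_left h3 h2.le
        _ = Λ := by field_simp
    have h7 : |(2 : ℝ) ^ Q * φ ω (bp F i₁ ω) - 2 ^ Q * φ ω' (bp F i₁ ω')| ≤ Λ := by
      rw [← mul_sub, abs_mul, abs_of_pos h2]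
      exact h6
    rw [abs_le] at h4 h7 ⊢
    constructor <;> linarith [h4.1, h4.2, h7.1, h7.2]
  have h8 := fl_sub h5
  refine h8.trans (by linarith)

/-- The rows up to the precision of the label are a function of the label and of the other
coordinates, up to bounded ambiguity. -/
theorem row_le {F : Fam m J} {i₁ : Fin m} {q : F.Ω → ℝ} (hq : IsLaw q)
    {Y : Type} (φ : F.Ω → (Fin m → ℝ) → ℝ) (ζ : F.Ω → Y) (L Q : ℕ) (hLQ : L ≤ Q) {Λ : ℝ}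
    (hΛ : 0 ≤ Λ) (hφ : ∀ ω, 0 < q ω → |F.x ω i₁ - φ ω (bp F i₁ ω)| ≤ 1 / 2 ^ L)
    (hlip : ∀ ω ω', 0 < q ω → 0 < q ω' → ζ ω = ζ ω' → F.W ω = F.W ω' →
      Vd F i₁ J ω = Vd F i₁ J ω' →
      |φ ω (bp F i₁ ω) - φ ω' (bp F i₁ ω')| ≤ Λ / 2 ^ Q) :
    CH q (fun ω => (F.X L ω i₁, (Vd F i₁ J ω, F.W ω)))
      (fun ω => ((Vd F i₁ J ω, F.W ω), ζ ω)) ≤ Real.log (2 * (Λ + 3) + 1) := by
  have h2 : (0 : ℝ) < 2 ^ Q := by positivity
  have h2' : (0 : ℝ) < 2 ^ L := by positivity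
  have h1 : CH q (fun ω => (F.X L ω i₁, (Vd F i₁ J ω, F.W ω)))
      (fun ω => ((Vd F i₁ J ω, F.W ω), ζ ω)) ≤
      CH q (fun ω => F.X L ω i₁) (fun ω => ((Vd F i₁ J ω, F.W ω), ζ ω)) :=
    CH_mono_left hq.nonneg fun ω ω' _ _ e => by
      have e1 := Prod.ext_iff.mp e
      have e2 := Prod.ext_iff.mp e1.2
      exact Prod.ext e1.1 e2.1
  refine h1.trans (CH_int hq _ _ ?_)
  intro ω ω' hω hω' e
  have e1 := Prod.ext_iff.mp e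
  have e2 := Prod.ext_iff.mp e1.1
  have h3 := hlip ω ω' hω hω' e1.2 e2.2 e2.1
  have h4 := hφ ω hω
  have h5 := hφ ω' hω'
  have h6 : (2 : ℝ) ^ L * |φ ω (bp F i₁ ω) - φ ω' (bp F i₁ ω')| ≤ Λ := by
    have h7 : (2 : ℝ) ^ L ≤ 2 ^ Q := pow_le_pow_right₀ (by norm_num) hLQ
    calc _ ≤ (2 : ℝ) ^ L * (Λ / 2 ^ Q) := mul_le_mul_of_nonneg_left h3 h2'.le
      _ ≤ 2 ^ Q * (Λ / 2 ^ Q) := mul_le_mul_of_nonneg_right h7 (by positivity)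
      _ = Λ := by field_simp
  have h8 : (2 : ℝ) ^ L * |F.x ω i₁ - φ ω (bp F i₁ ω)| ≤ 1 := by
    calc _ ≤ (2 : ℝ) ^ L * (1 / 2 ^ L) := mul_le_mul_of_nonneg_left h4 h2'.le
      _ = 1 := by field_simp
  have h9 : (2 : ℝ) ^ L * |F.x ω' i₁ - φ ω' (bp F i₁ ω')| ≤ 1 := by
    calc _ ≤ (2 : ℝ) ^ L * (1 / 2 ^ L) := mul_le_mul_of_nonneg_left h5 h2'.le
      _ = 1 := by field_simp
  have h10 : |(2 : ℝ) ^ L * F.x ω i₁ - 2 ^ L * F.x ω' i₁| ≤ Λ + 2 := by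
    have e5 : (2 : ℝ) ^ L * F.x ω i₁ - 2 ^ L * F.x ω' i₁ =
        2 ^ L * (F.x ω i₁ - φ ω (bp F i₁ ω)) - 2 ^ L * (F.x ω' i₁ - φ ω' (bp F i₁ ω')) +
        2 ^ L * (φ ω (bp F i₁ ω) - φ ω' (bp F i₁ ω')) := by ring
    rw [e5]
    refine (abs_add_le _ _).trans ?_
    refine (add_le_add (abs_sub _ _) le_rfl).trans ?_
    rw [abs_mul, abs_mul, abs_mul, abs_of_pos h2']
    linarith
  exact (fl_sub h10).trans (by linarith)

/-- **(TRANSFER), form for families.** `φ` is the label of precision `2 ^ (-L)`, `c` determines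
with `ζ` and `Vb` the block up to `e`, and `Vf = (all digits of V, W)` is exact given the labels up
to `d`. -/
theorem transfer_fam {F : Fam m J} {i₁ : Fin m} {q : F.Ω → ℝ} (hq : IsLaw q)
    {Y Y' U R : Type} (φ : F.Ω → (Fin m → ℝ) → ℝ) (ζ : F.Ω → Y) (c : F.Ω → Y') (Vb : F.Ω → U)
    (r : F.Ω → R) (L Q : ℕ) (hLQ : L ≤ Q) {Λ a d e : ℝ} (hΛ : 0 ≤ Λ)
    (hφ : ∀ ω, 0 < q ω → |F.x ω i₁ - φ ω (bp F i₁ ω)| ≤ 1 / 2 ^ L)
    (hlip : ∀ ω ω', 0 < q ω → 0 < q ω' → ζ ω = ζ ω' → F.W ω = F.W ω' →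
      Vd F i₁ J ω = Vd F i₁ J ω' →
      |φ ω (bp F i₁ ω) - φ ω' (bp F i₁ ω')| ≤ Λ / 2 ^ Q)
    (hr : Det q (fun ω => (r ω, Vb ω)) ζ)
    (ha : a ≤ CH q (nbk F i₁ φ Q) (fun ω => (r ω, Vb ω)))
    (hd : CH q (fun ω => (Vd F i₁ J ω, F.W ω)) (fun ω => (ζ ω, Vb ω)) -
      CH q (fun ω => (Vd F i₁ J ω, F.W ω)) (fun ω => (c ω, (ζ ω, Vb ω))) ≤ d)
    (he : CH q (nbk F i₁ φ Q) (fun ω => (c ω, (ζ ω, Vb ω))) ≤ e) :
    a - d - e - Real.log (2 * (Λ + 2) + 1) - Real.log (2 * (Λ + 3) + 1) ≤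
      CH q (fun ω => F.X Q ω i₁) (fun ω => (F.X L ω i₁, (Vd F i₁ J ω, F.W ω))) := by
  refine transfer_rows hq.nonneg (nbk F i₁ φ Q) (fun ω => F.X Q ω i₁) c ζ Vb
    (fun ω => (Vd F i₁ J ω, F.W ω)) r (fun ω => (F.X L ω i₁, (Vd F i₁ J ω, F.W ω)))
    hr ha hd he ?_ ?_
  · refine (CH_mono_cond hq.nonneg fun ω ω' _ _ e => ?_).trans (nbk_le hq φ ζ Q hlip)
    have e1 := Prod.ext_iff.mp e
    have e2 := Prod.ext_iff.mp e1.2
    have e3 := Prod.ext_iff.mp e2.2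
    exact Prod.ext e1.1 (Prod.ext e2.1 e3.1)
  · refine (CH_mono_cond hq.nonneg fun ω ω' _ _ e => ?_).trans
      (row_le hq φ ζ L Q hLQ hΛ hφ hlip)
    have e1 := Prod.ext_iff.mp e
    have e2 := Prod.ext_iff.mp e1.2
    exact Prod.ext e1.1 e2.1

/-- **(TRANSFER) for families, along a chain of records**: for all but `(A - B - ∑ b) / η` of the
blocks `k`, whatever the labels and the target rows of the block are. -/
theorem transfer_fam_chain {F : Fam m J} {i₁ : Fin m} {q : F.Ω → ℝ} (hq : IsLaw q)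
    {Y U : Type} (n : ℕ) (R : ℕ → F.Ω → Y) (Vb : ℕ → F.Ω → U) (b : ℕ → ℝ) {A B η : ℝ}
    (hR : ∀ k < n, Det q (R (k + 1)) (R k)) (hV : ∀ k < n, Det q (R (k + 1)) (Vb k))
    (hf : ∀ k < n, Det q (fun ω => ((Vd F i₁ J ω, F.W ω), R k ω)) (Vb k))
    (h0 : CH q (fun ω => (Vd F i₁ J ω, F.W ω)) (R 0) ≤ A)
    (hn : B ≤ CH q (fun ω => (Vd F i₁ J ω, F.W ω)) (R n))
    (hb : ∀ k < n, b k ≤ CH q (Vb k) (R k)) :
    ∃ s ⊆ range n, (s.card : ℝ) * η ≤ A - B - ∑ k ∈ range n, b k ∧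
      ∀ k < n, k ∉ s → ∀ (φ : F.Ω → (Fin m → ℝ) → ℝ) (L Q : ℕ) (Λ a e : ℝ), L ≤ Q → 0 ≤ Λ →
        (∀ ω, 0 < q ω → |F.x ω i₁ - φ ω (bp F i₁ ω)| ≤ 1 / 2 ^ L) →
        (∀ ω ω', 0 < q ω → 0 < q ω' → R k ω = R k ω' → F.W ω = F.W ω' →
          Vd F i₁ J ω = Vd F i₁ J ω' →
          |φ ω (bp F i₁ ω) - φ ω' (bp F i₁ ω')| ≤ Λ / 2 ^ Q) →
        a ≤ CH q (nbk F i₁ φ Q) (fun ω => (R k ω, Vb k ω)) →
        CH q (nbk F i₁ φ Q) (R (k + 1)) ≤ e →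
        a - η - e - Real.log (2 * (Λ + 2) + 1) - Real.log (2 * (Λ + 3) + 1) ≤
          CH q (fun ω => F.X Q ω i₁) (fun ω => (F.X L ω i₁, (Vd F i₁ J ω, F.W ω))) := by
  have h1 := exact_sum hq.nonneg n R Vb (fun ω => (Vd F i₁ J ω, F.W ω)) b hR hV hf h0 hn hb
  refine ⟨(range n).filter fun k =>
    η < dft q (fun ω => (Vd F i₁ J ω, F.W ω)) (R k) (Vb k) (R (k + 1)),
    Finset.filter_subset _ _, ?_, ?_⟩
  · refine le_trans ?_ h1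
    have h2 : ∑ k ∈ (range n).filter (fun k =>
        η < dft q (fun ω => (Vd F i₁ J ω, F.W ω)) (R k) (Vb k) (R (k + 1))), η ≤
        ∑ k ∈ (range n).filter (fun k =>
          η < dft q (fun ω => (Vd F i₁ J ω, F.W ω)) (R k) (Vb k) (R (k + 1))),
          dft q (fun ω => (Vd F i₁ J ω, F.W ω)) (R k) (Vb k) (R (k + 1)) :=
      Finset.sum_le_sum fun k hk => (Finset.mem_filter.1 hk).2.le
    rw [Finset.sum_const, nsmul_eq_mul] at h2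
    exact h2.trans (Finset.sum_le_sum_of_subset_of_nonneg (Finset.filter_subset _ _)
      fun k _ _ => dft_nonneg hq.nonneg _ _ _ _)
  · intro k hk hks φ L Q Λ a e hLQ hΛ hφ hlip ha he
    refine transfer_fam hq φ (R k) (R (k + 1)) (Vb k) (R k) L Q hLQ hΛ hφ hlip
      (fun ω ω' _ _ e => (Prod.ext_iff.mp e).1) ha ?_ ?_
    · by_contra hc
      push Not at hc
      exact hks (Finset.mem_filter.2 ⟨mem_range.2 hk, hc⟩)
    · refine (CH_mono_cond hq.nonneg fun ω ω' _ _ e => ?_).trans he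
      exact (Prod.ext_iff.mp e).1

end Pool.KG
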