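import Pool.Agent.H33.GEN.Tr

/-!
# Transfer along a chain of records (thin zones)

`exact_sum`: along a chain of records `R k`, the total information which the labels give about the
digits of the other coordinates beyond the blocks is at most the defect of exactness.
`transfer_chain`: (TRANSFER) holds with a small loss for all but a few blocks of the chain.
-/

set_option autoImplicit false

namespace Pool.KG

open Finset Real
open Pool.Agent.H49.Ent Pool.Agent.H32.Dense Pool.STK Pool.KA Pool.K2S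

variable {Ω S T U V R : Type} [Fintype Ω] {p : Ω → ℝ}

/-- The defect of one block. -/
noncomputable def dft (p : Ω → ℝ) (Vf : Ω → V) (r : Ω → R) (b : Ω → U) (r' : Ω → S) : ℝ :=
  CH p Vf (fun ω => (r ω, b ω)) - CH p Vf (fun ω => (r' ω, (r ω, b ω)))

theorem dft_nonneg (hp : ∀ ω, 0 ≤ p ω) (Vf : Ω → V) (r : Ω → R) (b : Ω → U) (r' : Ω → S) :
    0 ≤ dft p Vf r b r' := by
  have : CH p Vf (fun ω => (r' ω, (r ω, b ω))) ≤ CH p Vf (fun ω => (r ω, b ω)) :=
    CH_mono_cond hp fun ω ω' _ _ q => (Prod.ext_iff.mp q).2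
  unfold dft
  linarith

/-- **The telescope of the defects.** -/
theorem exact_sum (hp : ∀ ω, 0 ≤ p ω) (n : ℕ) (R : ℕ → Ω → S) (Vb : ℕ → Ω → U) (Vf : Ω → V)
    (b : ℕ → ℝ) {A B : ℝ}
    (hR : ∀ k < n, Det p (R (k + 1)) (R k)) (hV : ∀ k < n, Det p (R (k + 1)) (Vb k))
    (hf : ∀ k < n, Det p (fun ω => (Vf ω, R k ω)) (Vb k))
    (h0 : CH p Vf (R 0) ≤ A) (hn : B ≤ CH p Vf (R n))
    (hb : ∀ k < n, b k ≤ CH p (Vb k) (R k)) :
    ∑ k ∈ range n, dft p Vf (R k) (Vb k) (R (k + 1)) ≤ A - B - ∑ k ∈ range n, b k := by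
  have key : ∀ k < n, dft p Vf (R k) (Vb k) (R (k + 1)) =
      CH p Vf (R k) - CH p (Vb k) (R k) - CH p Vf (R (k + 1)) := by
    intro k hk
    have h1 : CH p Vf (fun ω => (R (k + 1) ω, (R k ω, Vb k ω))) = CH p Vf (R (k + 1)) := by
      refine CH_congr hp (fun _ _ _ _ e => (Prod.ext_iff.mp e).1)
        (fun _ _ _ _ e => (Prod.ext_iff.mp e).1) ?_ ?_
      · intro ω ω' _ _ e
        exact (Prod.ext_iff.mp e).1
      · intro ω ω' a b e
        exact Prod.ext e (Prod.ext (hR k hk ω ω' a b e) (hV k hk ω ω' a b e))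
    have h2 := CH_chain hp (Vb k) Vf (R k)
    have h4 := CH_chain hp Vf (Vb k) (R k)
    have h5 : CH p (Vb k) (fun ω => (Vf ω, R k ω)) = 0 := CH_eq_zero hp (hf k hk)
    have h6 : CH p (fun ω => (Vb k ω, Vf ω)) (R k) = CH p (fun ω => (Vf ω, Vb k ω)) (R k) :=
      CH_congr hp (fun ω ω' _ _ e => by
        have e1 := Prod.ext_iff.mp (Prod.ext_iff.mp e).1
        exact Prod.ext e1.2 e1.1) (fun ω ω' _ _ e => by
        have e1 := Prod.ext_iff.mp (Prod.ext_iff.mp e).1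
        exact Prod.ext e1.2 e1.1) (fun _ _ _ _ e => e) (fun _ _ _ _ e => e)
    have h7 : CH p Vf (fun ω => (Vb k ω, R k ω)) = CH p Vf (fun ω => (R k ω, Vb k ω)) :=
      CH_congr hp (fun _ _ _ _ e => (Prod.ext_iff.mp e).1)
        (fun _ _ _ _ e => (Prod.ext_iff.mp e).1) (fun ω ω' _ _ e => by
          have e1 := Prod.ext_iff.mp e
          exact Prod.ext e1.2 e1.1) (fun ω ω' _ _ e => by
          have e1 := Prod.ext_iff.mp e
          exact Prod.ext e1.2 e1.1)
    unfold dft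
    linarith
  rw [Finset.sum_congr rfl fun k hk => key k (mem_range.1 hk)]
  have h1 : ∑ k ∈ range n, (CH p Vf (R k) - CH p Vf (R (k + 1))) =
      CH p Vf (R 0) - CH p Vf (R n) := Finset.sum_range_sub' (fun k => CH p Vf (R k)) n
  have h2 : ∑ k ∈ range n, b k ≤ ∑ k ∈ range n, CH p (Vb k) (R k) :=
    Finset.sum_le_sum fun k hk => hb k (mem_range.1 hk)
  have h3 : ∑ k ∈ range n, (CH p Vf (R k) - CH p (Vb k) (R k) - CH p Vf (R (k + 1))) =
      ∑ k ∈ range n, (CH p Vf (R k) - CH p Vf (R (k + 1))) -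
        ∑ k ∈ range n, CH p (Vb k) (R k) := by
    rw [← Finset.sum_sub_distrib]
    exact Finset.sum_congr rfl fun k _ => by ring
  linarith

/-- **(TRANSFER) along a chain**: for all but `(A - B - ∑ b) / η` of the blocks. -/
theorem transfer_chain (hp : ∀ ω, 0 ≤ p ω) (n : ℕ) (R : ℕ → Ω → S) (Vb : ℕ → Ω → U)
    (Vf : Ω → V) (b : ℕ → ℝ) {A B η : ℝ}
    (hR : ∀ k < n, Det p (R (k + 1)) (R k)) (hV : ∀ k < n, Det p (R (k + 1)) (Vb k))
    (hf : ∀ k < n, Det p (fun ω => (Vf ω, R k ω)) (Vb k))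
    (h0 : CH p Vf (R 0) ≤ A) (hn : B ≤ CH p Vf (R n))
    (hb : ∀ k < n, b k ≤ CH p (Vb k) (R k)) :
    ∃ s ⊆ range n, (s.card : ℝ) * η ≤ A - B - ∑ k ∈ range n, b k ∧
      ∀ k < n, k ∉ s → ∀ (N : Ω → T) (e : ℝ),
        CH p N (fun ω => (R (k + 1) ω, (R k ω, Vb k ω))) ≤ e →
        CH p N (fun ω => (R k ω, Vb k ω)) - η - e ≤
          CH p N (fun ω => (Vf ω, (R k ω, Vb k ω))) := by
  have h1 := exact_sum hp n R Vb Vf b hR hV hf h0 hn hb
  refine ⟨(range n).filter fun k => η < dft p Vf (R k) (Vb k) (R (k + 1)),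
    Finset.filter_subset _ _, ?_, ?_⟩
  · refine le_trans ?_ h1
    have h2 : ∑ k ∈ (range n).filter (fun k => η < dft p Vf (R k) (Vb k) (R (k + 1))), η ≤
        ∑ k ∈ (range n).filter (fun k => η < dft p Vf (R k) (Vb k) (R (k + 1))),
          dft p Vf (R k) (Vb k) (R (k + 1)) :=
      Finset.sum_le_sum fun k hk => (Finset.mem_filter.1 hk).2.le
    rw [Finset.sum_const, nsmul_eq_mul] at h2
    exact h2.trans (Finset.sum_le_sum_of_subset_of_nonneg (Finset.filter_subset _ _)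
      fun k _ _ => dft_nonneg hp _ _ _ _)
  · intro k hk hks N e he
    refine transfer hp N (R (k + 1)) (R k) (Vb k) Vf ?_ he
    by_contra hc
    push Not at hc
    exact hks (Finset.mem_filter.2 ⟨mem_range.2 hk, hc⟩)

end Pool.KG
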